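import Pool.Agent.Q107.Bn.Merge
import Pool.Agent.Q107.Broadcast.Basic

/-!
# A family of trees on which `i_h - i_bn` is unbounded
-/

set_option autoImplicit false

namespace Q107.Bn.Comb

open SimpleGraph Finset Q107.Bn

/-- vertices: the spine `0, ..., 9N - 1` and, for every base `i < 2N`, `M` legs of length two -/
abbrev Vt (N M : ℕ) : Type := Fin (9 * N) ⊕ (Fin (2 * N) × Fin M × Bool)

/-- the position of a base -/
def bp (i : ℕ) : ℕ := 4 * i + i / 2 + 2

/-- the position of a vertex -/
def pos {N M : ℕ} : Vt N M → ℕ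
  | Sum.inl x => x.val
  | Sum.inr y => bp y.1.val

/-- the height of a vertex -/
def ht {N M : ℕ} : Vt N M → ℕ
  | Sum.inl _ => 0
  | Sum.inr y => if y.2.2 then 2 else 1

/-- the distance function -/
def D {N M : ℕ} (u v : Vt N M) : ℕ :=
  match u, v with
  | Sum.inr x, Sum.inr y =>
      if x.1 = y.1 ∧ x.2.1 = y.2.1 then (if x.2.2 = y.2.2 then 0 else 1)
      else (pos (Sum.inr x : Vt N M) - pos (Sum.inr y : Vt N M)) +
        (pos (Sum.inr y : Vt N M) - pos (Sum.inr x : Vt N M)) +
        ht (Sum.inr x : Vt N M) + ht (Sum.inr y : Vt N M)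
  | u, v => (pos u - pos v) + (pos v - pos u) + ht u + ht v

variable {N M : ℕ}

lemma D_ll (x y : Fin (9 * N)) : D (Sum.inl x : Vt N M) (Sum.inl y) =
    (x.val - y.val) + (y.val - x.val) := rfl

lemma D_lr (x : Fin (9 * N)) (i : Fin (2 * N)) (m : Fin M) (b : Bool) :
    D (Sum.inl x : Vt N M) (Sum.inr (i, m, b)) =
    (x.val - bp i) + (bp i - x.val) + (if b then 2 else 1) := by
  simp [D, pos, ht]

lemma D_rl (x : Fin (9 * N)) (i : Fin (2 * N)) (m : Fin M) (b : Bool) :
    D (Sum.inr (i, m, b) : Vt N M) (Sum.inl x) =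
    (bp i - x.val) + (x.val - bp i) + (if b then 2 else 1) := by
  simp [D, pos, ht]

lemma D_rr (i j : Fin (2 * N)) (m l : Fin M) (b c : Bool) :
    D (Sum.inr (i, m, b) : Vt N M) (Sum.inr (j, l, c)) =
    if i = j ∧ m = l then (if b = c then 0 else 1)
      else (bp i - bp j) + (bp j - bp i) + (if b then 2 else 1) + (if c then 2 else 1) := rfl

lemma D_self (u : Vt N M) : D u u = 0 := by
  rcases u with x | ⟨i, m, b⟩
  · rw [D_ll]; omega
  · rw [D_rr]; simp

lemma D_comm (u v : Vt N M) : D u v = D v u := by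
  rcases u with x | ⟨i, m, b⟩ <;> rcases v with y | ⟨j, l, c⟩
  · rw [D_ll, D_ll]; omega
  · rw [D_lr, D_rl]; omega
  · rw [D_lr, D_rl]; omega
  · rw [D_rr, D_rr]
    by_cases h : i = j ∧ m = l
    · obtain ⟨rfl, rfl⟩ := h
      by_cases hb : b = c
      · subst hb
        rfl
      · have hb' : ¬ c = b := fun h => hb h.symm
        simp [hb, hb']
    · have h' : ¬ (j = i ∧ l = m) := fun h' => h ⟨h'.1.symm, h'.2.symm⟩
      rw [if_neg h, if_neg h']
      omega

/-- the tree -/
def tr (N M : ℕ) : SimpleGraph (Vt N M) where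
  Adj u v := D u v = 1
  symm := ⟨fun u v h => by rw [D_comm]; exact h⟩
  loopless := ⟨fun u h => by rw [D_self] at h; exact absurd h (by norm_num)⟩

lemma bp_inj {i j : ℕ} (h : bp i = bp j) : i = j := by
  unfold bp at h
  omega

lemma bp_lt (i : Fin (2 * N)) : bp i < 9 * N := by
  unfold bp
  omega

/-- the base vertex on the spine -/
def base (M : ℕ) (i : Fin (2 * N)) : Vt N M := Sum.inl ⟨bp i, bp_lt i⟩

lemma tr_h1 (u v w : Vt N M) (h : D v w = 1) : D u w ≤ D u v + 1 := by
  rcases u with x | ⟨i, m, b⟩ <;> rcases v with y | ⟨j, l, c⟩ <;> rcases w with z | ⟨k, q, e⟩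
  · rw [D_ll] at *
    rw [D_ll]; omega
  · rw [D_lr] at *
    rw [D_ll]
    split_ifs at * <;> omega
  · rw [D_rl] at h
    rw [D_ll, D_lr]
    split_ifs at * <;> omega
  · rw [D_rr] at h
    rw [D_lr, D_lr]
    by_cases h1 : j = k ∧ l = q
    · rw [h1.1]
      split_ifs at * <;> omega
    · rw [if_neg h1] at h
      split_ifs at * <;> omega
  · rw [D_ll] at h
    rw [D_rl, D_rl]; omega
  · rw [D_lr] at h
    rw [D_rl, D_rr]
    by_cases h1 : i = k ∧ m = q
    · rw [if_pos h1, h1.1]
      split_ifs at * <;> omega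
    · rw [if_neg h1]
      split_ifs at * <;> omega
  · rw [D_rl] at h
    rw [D_rl, D_rr]
    by_cases h1 : i = j ∧ m = l
    · rw [if_pos h1, h1.1]
      split_ifs at * <;> simp_all
    · rw [if_neg h1]
      split_ifs at * <;> omega
  · rw [D_rr] at h
    rw [D_rr, D_rr]
    by_cases h1 : j = k ∧ l = q
    · obtain ⟨rfl, rfl⟩ := h1
      split_ifs at * <;> omega
    · rw [if_neg h1] at h
      split_ifs at * <;> omega

lemma tr_h2 (u v : Vt N M) (h : u ≠ v) : ∃ w, D w v = 1 ∧ D u w + 1 = D u v := by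
  rcases v with y | ⟨j, l, c⟩
  · rcases u with x | ⟨i, m, b⟩
    · have hxy : x.val ≠ y.val := fun h' => h (by rw [Fin.ext h'])
      rcases Nat.lt_or_gt_of_ne hxy with h1 | h1
      · refine ⟨Sum.inl ⟨y.val - 1, by omega⟩, ?_, ?_⟩
        · rw [D_ll]; dsimp only; omega
        · rw [D_ll, D_ll]; dsimp only; omega
      · refine ⟨Sum.inl ⟨y.val + 1, by omega⟩, ?_, ?_⟩
        · rw [D_ll]; dsimp only; omega
        · rw [D_ll, D_ll]; dsimp only; omega
    · rcases Nat.lt_trichotomy (bp i) y.val with h1 | h1 | h1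
      · refine ⟨Sum.inl ⟨y.val - 1, by omega⟩, ?_, ?_⟩
        · rw [D_ll]; dsimp only; omega
        · rw [D_rl, D_rl]; dsimp only; omega
      · refine ⟨Sum.inr (i, m, false), ?_, ?_⟩
        · rw [D_rl, h1]; simp
        · rw [D_rr, D_rl, h1]
          cases b <;> simp
      · have := bp_lt i
        refine ⟨Sum.inl ⟨y.val + 1, by omega⟩, ?_, ?_⟩
        · rw [D_ll]; dsimp only; omega
        · rw [D_rl, D_rl]; dsimp only; omega
  · -- `v` is a leg vertex
    by_cases hsame : ∃ b, u = Sum.inr (j, l, b)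
    · obtain ⟨b, rfl⟩ := hsame
      refine ⟨Sum.inr (j, l, b), ?_, ?_⟩
      · rw [D_rr, if_pos ⟨rfl, rfl⟩, if_neg]
        rintro rfl
        exact h rfl
      · rw [D_self, D_rr, if_pos ⟨rfl, rfl⟩, if_neg]
        rintro rfl
        exact h rfl
    · cases c
      · refine ⟨base M j, ?_, ?_⟩
        · unfold base
          rw [D_lr]
          simp
        · unfold base
          rcases u with x | ⟨i, m, b⟩
          · rw [D_ll, D_lr]
            simp only [Bool.false_eq_true, if_false]
          · have hn : ¬ (i = j ∧ m = l) := by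
              rintro ⟨rfl, rfl⟩
              exact hsame ⟨b, rfl⟩
            rw [D_rl, D_rr, if_neg hn]
            simp only [Bool.false_eq_true, if_false]
      · refine ⟨Sum.inr (j, l, false), ?_, ?_⟩
        · rw [D_rr]; simp
        · rcases u with x | ⟨i, m, b⟩
          · rw [D_lr, D_lr]
            simp only [Bool.false_eq_true, if_false, if_true]
          · have hn : ¬ (i = j ∧ m = l) := by
              rintro ⟨rfl, rfl⟩
              exact hsame ⟨b, rfl⟩
            rw [D_rr, D_rr, if_neg hn, if_neg hn]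
            simp only [Bool.false_eq_true, if_false, if_true]

lemma tr_table (u v : Vt N M) : (tr N M).Reachable u v ∧ (tr N M).dist u v = D u v :=
  Q107.Broadcast.table D_self (fun u v w h => tr_h1 u v w h) (fun u v h => tr_h2 u v h) u v

lemma tr_dist (u v : Vt N M) : (tr N M).dist u v = D u v := (tr_table u v).2

lemma tr_connected (hN : 0 < N) : (tr N M).Connected := by
  rw [connected_iff]
  exact ⟨fun u v => (tr_table u v).1, ⟨Sum.inl ⟨0, by omega⟩⟩⟩

lemma D_tri (u v w : Vt N M) : D u w ≤ D u v + D v w := by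
  rw [← tr_dist, ← tr_dist, ← tr_dist]
  exact tri (tr_table u v).1

/-- distance from a vertex to a base -/
lemma D_base (v : Vt N M) (i : Fin (2 * N)) :
    D v (base M i) = (pos v - bp i) + (bp i - pos v) + ht v := by
  unfold base
  rcases v with x | ⟨j, m, b⟩
  · rw [D_ll]; simp [pos, ht]
  · rw [D_rl]; simp [pos, ht]

/-- distances from spine vertices -/
lemma D_spine (v : Vt N M) (x : Fin (9 * N)) :
    D v (Sum.inl x) = (pos v - x.val) + (x.val - pos v) + ht v := by
  rcases v with y | ⟨j, m, b⟩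
  · rw [D_ll]; simp [pos, ht]
  · rw [D_rl]; simp [pos, ht]

lemma ht_le (v : Vt N M) : ht v ≤ 2 := by
  rcases v with y | ⟨j, m, b⟩
  · simp [ht]
  · simp only [ht]; split_ifs <;> omega

/-- vertices off the spine sit at bases -/
lemma ht_pos {v : Vt N M} (h : 0 < ht v) : ∃ j : Fin (2 * N), pos v = bp j := by
  rcases v with y | ⟨j, m, b⟩
  · simp [ht] at h
  · exact ⟨j, rfl⟩

lemma eq_spine {v : Vt N M} (h : ht v = 0) : ∃ x : Fin (9 * N), v = Sum.inl x := by
  rcases v with y | ⟨j, m, b⟩
  · exact ⟨y, rfl⟩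
  · simp only [ht] at h
    split_ifs at h

/-! ### the upper bound for `i_bn` -/

/-- the good function: value two at every base -/
def fb (N M : ℕ) (v : Vt N M) : ℕ := if ht v = 0 ∧ ∃ i : Fin (2 * N), bp i = pos v then 2 else 0

lemma fb_base (i : Fin (2 * N)) : fb N M (base M i) = 2 := by
  unfold fb base
  rw [if_pos]
  exact ⟨rfl, i, rfl⟩

lemma fb_pos {v : Vt N M} (h : 0 < fb N M v) : ∃ i : Fin (2 * N), v = base M i := by
  unfold fb at h
  split_ifs at h with h1
  · obtain ⟨x, rfl⟩ := eq_spine h1.1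
    obtain ⟨i, hi⟩ := h1.2
    refine ⟨i, ?_⟩
    unfold base
    congr 1
    exact Fin.ext hi.symm
  · exact absurd h (lt_irrefl 0)

lemma good_fb : Good (tr N M) (fb N M) := by
  constructor
  · intro v
    -- the nearest base
    have hex : ∃ i : Fin (2 * N), D v (base M i) ≤ 2 := by
      rcases v with x | ⟨j, m, b⟩
      · have hx := x.2
        -- the position modulo nine
        by_cases h1 : x.val % 9 ≤ 4
        · refine ⟨⟨2 * (x.val / 9), by omega⟩, ?_⟩
          rw [D_base]
          simp only [pos, ht, bp]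
          omega
        · refine ⟨⟨2 * (x.val / 9) + 1, by omega⟩, ?_⟩
          rw [D_base]
          simp only [pos, ht, bp]
          omega
      · refine ⟨j, ?_⟩
        rw [D_base]
        have := ht_le (Sum.inr (j, m, b) : Vt N M)
        simp only [pos]
        omega
    obtain ⟨i, hi⟩ := hex
    refine ⟨base M i, by rw [fb_base]; norm_num, (tr_table _ _).1, ?_⟩
    rw [fb_base, tr_dist]
    exact hi
  · intro v hv
    obtain ⟨i, rfl⟩ := fb_pos hv
    left
    have hi := i.2
    by_cases hpar : i.val % 2 = 0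
    · refine ⟨base M ⟨i.val + 1, by omega⟩, ?_, ?_, (tr_table _ _).1, ?_⟩
      · intro h
        have h1 := congrArg (fun w => D w (base M i)) h
        simp only [D_self, D_base] at h1
        simp only [base, pos, ht, bp] at h1
        omega
      · rw [fb_base]; norm_num
      · rw [fb_base, fb_base, tr_dist, D_base]
        simp only [base, pos, ht, bp]
        omega
    · refine ⟨base M ⟨i.val - 1, by omega⟩, ?_, ?_, (tr_table _ _).1, ?_⟩
      · intro h
        have h1 := congrArg (fun w => D w (base M i)) h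
        simp only [D_self, D_base] at h1
        simp only [base, pos, ht, bp] at h1
        omega
      · rw [fb_base]; norm_num
      · rw [fb_base, fb_base, tr_dist, D_base]
        simp only [base, pos, ht, bp]
        omega

lemma base_inj : Function.Injective (base (N := N) M) := by
  intro i j h
  unfold base at h
  have h1 := Sum.inl_injective h
  have h2 : bp i = bp j := congrArg Fin.val h1
  exact Fin.ext (bp_inj h2)

lemma sum_fb : ∑ v, fb N M v = 4 * N := by
  classical
  have h1 : ∑ v, fb N M v = ∑ v ∈ univ.image (base (N := N) M), fb N M v := by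
    symm
    apply Finset.sum_subset (Finset.subset_univ _)
    intro v _ hv
    by_contra hne
    obtain ⟨i, rfl⟩ := fb_pos (Nat.pos_of_ne_zero hne)
    exact hv (Finset.mem_image_of_mem _ (Finset.mem_univ i))
  rw [h1, Finset.sum_image (fun a _ b _ h => base_inj h)]
  simp only [fb_base, Finset.sum_const, Finset.card_univ, Fintype.card_fin, smul_eq_mul]
  ring

lemma iBn_tr : iBn (tr N M) ≤ 4 * N := by
  rw [← sum_fb (N := N) (M := M)]
  exact iBn_le_of_good good_fb

end Q107.Bn.Comb
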