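import Pool.Agent.Q107.Bn.Comb

/-!
# The lower bound for `i_h` on the family of trees
-/

set_option autoImplicit false

namespace Q107.Bn.Comb

open SimpleGraph Finset Q107.Bn

/-- in a maximal hearing independent broadcast every ball is blocked -/
lemma blocked {V : Type} [Fintype V] {G : SimpleGraph V} {f : V → ℕ}
    (hf : IsMaximalHearing G f) {v : V} (hv : 0 < f v) (hadj : ∃ u, G.Adj v u)
    (hlt : f v < ecc G v) :
    ∃ u, u ≠ v ∧ 0 < f u ∧ G.Reachable u v ∧ G.dist u v ≤ f v + 1 := by
  classical
  obtain ⟨hb, hhi, hmax⟩ := hf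
  by_contra hcon1
  push Not at hcon1
  refine hmax _ (add_one_broadcast hb hadj hlt) (fun w => ?_) (fun h => ?_) ?_
  · by_cases hw : w = v
    · subst hw; rw [Function.update_self]; omega
    · rw [Function.update_of_ne hw]
  · have := congrFun h v
    rw [Function.update_self] at this
    omega
  · rintro a b ha hab ⟨h1, h2, h3⟩
    by_cases hbv : b = v
    · subst hbv
      rw [Function.update_self] at h3
      rw [Function.update_of_ne hab.symm] at ha
      have := hcon1 a hab.symm ha h2
      omega
    · rw [Function.update_of_ne hbv] at h1 h3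
      by_cases hav : a = v
      · subst hav
        exact hhi a b hv hab ⟨h1, h2, h3⟩
      · rw [Function.update_of_ne hav] at ha
        exact hhi a b ha hab ⟨h1, h2, h3⟩

variable {N M : ℕ}

/-- a leg without broadcasting vertices -/
lemma free_leg {f : Vt N M → ℕ} (hsum : ∑ v, f v < M) (i : Fin (2 * N)) :
    ∃ m : Fin M, ∀ b, f (Sum.inr (i, m, b)) = 0 := by
  by_contra hcon
  push Not at hcon
  have h1 : M ≤ ∑ m : Fin M, ∑ b : Bool, f (Sum.inr (i, m, b)) := by
    calc M = ∑ _m : Fin M, 1 := by simp
      _ ≤ _ := by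
        apply Finset.sum_le_sum
        intro m _
        obtain ⟨b, hb⟩ := hcon m
        exact (Nat.one_le_iff_ne_zero.2 hb).trans
          (Finset.single_le_sum (f := fun b => f (Sum.inr (i, m, b)))
            (fun _ _ => Nat.zero_le _) (Finset.mem_univ b))
  have h2 : ∑ m : Fin M, ∑ b : Bool, f (Sum.inr (i, m, b)) ≤ ∑ v, f v := by
    rw [Fintype.sum_sum_type, Fintype.sum_prod_type]
    have h3 : ∑ m : Fin M, ∑ b : Bool, f (Sum.inr (i, m, b)) =
        ∑ y : Fin M × Bool, f (Sum.inr (i, y)) := by
      rw [Fintype.sum_prod_type]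
    rw [h3]
    have h4 := Finset.single_le_sum (f := fun i : Fin (2 * N) =>
      ∑ y : Fin M × Bool, f (Sum.inr (i, y))) (fun _ _ => Nat.zero_le _) (Finset.mem_univ i)
    exact h4.trans (Nat.le_add_left _ _)
  omega

/-- the ball that covers the tip of a free leg -/
lemma assign {f : Vt N M → ℕ} (hsum : ∑ v, f v < M)
    (hdom : ∀ x : Vt N M, ∃ v, 0 < f v ∧ D x v ≤ f v) (i : Fin (2 * N)) :
    ∃ v, D v (base M i) + 2 ≤ f v := by
  obtain ⟨m, hm⟩ := free_leg hsum i
  obtain ⟨v, h1, h2⟩ := hdom (Sum.inr (i, m, true))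
  refine ⟨v, ?_⟩
  rw [D_base]
  rcases v with x | ⟨j, l, c⟩
  · rw [D_rl] at h2
    simp only [if_true] at h2
    simp only [pos, ht]
    omega
  · have hn : ¬ (i = j ∧ m = l) := by
      rintro ⟨rfl, rfl⟩
      rw [hm c] at h1
      exact absurd h1 (lt_irrefl 0)
    rw [D_rr, if_neg hn] at h2
    simp only [if_true] at h2
    simp only [pos, ht]
    split_ifs at * <;> omega

/-- two bases assigned to the same ball -/
lemma two_bases {v : Vt N M} {k : ℕ} {i j : Fin (2 * N)} (hij : i.val ≤ j.val)
    (hi : D v (base M i) + 2 ≤ k) (hj : D v (base M j) + 2 ≤ k) :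
    4 + 4 * (j.val - i.val) + (j.val / 2 - i.val / 2) ≤ 2 * k := by
  rw [D_base] at hi hj
  simp only [bp] at hi hj
  omega

section count

variable {f : Vt N M → ℕ} {a : Fin (2 * N) → Vt N M}

/-- the bases assigned to `v` -/
noncomputable def Iv (a : Fin (2 * N) → Vt N M) (v : Vt N M) : Finset (Fin (2 * N)) :=
  univ.filter fun i => a i = v

lemma mem_Iv {v : Vt N M} {i : Fin (2 * N)} : i ∈ Iv a v ↔ a i = v := by
  simp [Iv]

/-- the extreme bases of a ball -/
lemma Iv_bounds (ha : ∀ i, D (a i) (base M i) + 2 ≤ f (a i)) {v : Vt N M}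
    (hne : (Iv a v).Nonempty) : ∃ i ∈ Iv a v, ∃ j ∈ Iv a v, i.val ≤ j.val ∧
      (Iv a v).card ≤ j.val - i.val + 1 ∧ (∀ l ∈ Iv a v, i.val ≤ l.val ∧ l.val ≤ j.val) ∧
      4 + 4 * (j.val - i.val) + (j.val / 2 - i.val / 2) ≤ 2 * f v := by
  obtain ⟨i, hi, hmin⟩ := Finset.exists_min_image (Iv a v) (fun i => i.val) hne
  obtain ⟨j, hj, hmax⟩ := Finset.exists_max_image (Iv a v) (fun i => i.val) hne
  have hij : i.val ≤ j.val := hmin j hj
  refine ⟨i, hi, j, hj, hij, ?_, fun l hl => ⟨hmin l hl, hmax l hl⟩, ?_⟩
  · have hsub : Iv a v ⊆ Finset.Icc i j := by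
      intro l hl
      rw [Finset.mem_Icc]
      exact ⟨hmin l hl, hmax l hl⟩
    have h1 := Finset.card_le_card hsub
    rw [Fin.card_Icc] at h1
    omega
  · have h1 := ha i
    have h2 := ha j
    rw [mem_Iv.1 hi] at h1
    rw [mem_Iv.1 hj] at h2
    exact two_bases hij h1 h2

lemma Iv_card_le (ha : ∀ i, D (a i) (base M i) + 2 ≤ f (a i)) (v : Vt N M) :
    4 * (Iv a v).card ≤ 2 * f v := by
  rcases (Iv a v).eq_empty_or_nonempty with h | h
  · rw [h]; simp
  · obtain ⟨i, _, j, _, _, h1, _, h2⟩ := Iv_bounds ha h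
    omega

lemma sum_Iv (a : Fin (2 * N) → Vt N M) : ∑ v, (Iv a v).card = 2 * N := by
  have h := Finset.card_eq_sum_card_fiberwise (f := a) (s := univ) (t := univ)
    (fun i _ => Finset.mem_univ _)
  rw [Finset.card_univ, Fintype.card_fin] at h
  exact h.symm

/-- the structure of a perfectly used ball -/
lemma perfect (ha : ∀ i, D (a i) (base M i) + 2 ≤ f (a i)) {i : Fin (2 * N)}
    (hp : 2 * f (a i) = 4 * (Iv a (a i)).card) :
    (f (a i) = 2 ∧ D (a i) (base M i) = 0) ∨
    (f (a i) = 4 ∧ D (a i) (base M i) ≤ 2 ∧ ∃ i' : Fin (2 * N), i' ≠ i ∧ i'.val / 2 = i.val / 2 ∧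
      a i' = a i ∧ D (a i) (base M i') ≤ 2) := by
  have hi : i ∈ Iv a (a i) := mem_Iv.2 rfl
  obtain ⟨i0, hi0, j0, hj0, h1, h2, h3, h4⟩ := Iv_bounds ha ⟨i, hi⟩
  obtain ⟨h5, h6⟩ := h3 i hi
  have h7 := ha i
  have h8 := mem_Iv.1 hi0
  have h9 := mem_Iv.1 hj0
  have h10 := ha i0
  have h11 := ha j0
  rw [h8] at h10
  rw [h9] at h11
  have h12 : j0.val ≤ i0.val + 1 := by omega
  rcases Nat.lt_or_ge i0.val j0.val with h | h
  · right
    have hf4 : f (a i) = 4 := by omega
    refine ⟨hf4, by omega, ?_⟩
    by_cases hii : i = i0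
    · subst hii
      refine ⟨j0, ?_, by omega, h9, by omega⟩
      rintro rfl
      omega
    · have hij : i = j0 := by
        apply Fin.ext
        have : i.val ≠ i0.val := fun h => hii (Fin.ext h)
        omega
      subst hij
      refine ⟨i0, ?_, by omega, h8, by omega⟩
      rintro rfl
      omega
  · left
    have : f (a i) = 2 := by omega
    exact ⟨this, by omega⟩

end count

lemma bp_gap (w j : ℕ) : bp j + 5 ≤ bp (6 * w + 2) ∨ bp j = bp (6 * w + 2) ∨
    bp j = bp (6 * w + 2) + 4 ∨ bp (6 * w + 2) + 9 ≤ bp j := by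
  unfold bp
  rcases Nat.lt_or_ge j (6 * w + 2) with h | h
  · left; omega
  · rcases Nat.lt_or_ge j (6 * w + 4) with h' | h'
    · have : j = 6 * w + 2 ∨ j = 6 * w + 3 := by omega
      rcases this with rfl | rfl
      · right; left; rfl
      · right; right; left; omega
    · right; right; right; omega

/-- the local contradiction: a window of six perfectly used bases -/
lemma window {f : Vt N M → ℕ} (hf : IsMaximalHearing (tr N M) f) {a : Fin (2 * N) → Vt N M}
    (ha : ∀ i, D (a i) (base M i) + 2 ≤ f (a i)) (w : ℕ) (hw : 6 * w + 5 < 2 * N)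
    (hp : ∀ t (ht : t < 6), 2 * f (a ⟨6 * w + t, by omega⟩) =
      4 * (Iv a (a ⟨6 * w + t, by omega⟩)).card) : False := by
  have hhear : ∀ u v : Vt N M, 0 < f u → v ≠ u → 0 < f v → f v < D u v := by
    intro u v hu hne hv
    by_contra hcon
    refine hf.2.1 u v hu hne ⟨hv, (tr_table _ _).1, ?_⟩
    rw [tr_dist]
    omega
  set i0 : Fin (2 * N) := ⟨6 * w, by omega⟩ with hi0
  set i1 : Fin (2 * N) := ⟨6 * w + 1, by omega⟩ with hi1
  set i2 : Fin (2 * N) := ⟨6 * w + 2, by omega⟩ with hi2
  set i3 : Fin (2 * N) := ⟨6 * w + 3, by omega⟩ with hi3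
  set i4 : Fin (2 * N) := ⟨6 * w + 4, by omega⟩ with hi4
  set i5 : Fin (2 * N) := ⟨6 * w + 5, by omega⟩ with hi5
  have p1 := perfect ha (hp 1 (by norm_num))
  have p2 := perfect ha (hp 2 (by norm_num))
  have p3 := perfect ha (hp 3 (by norm_num))
  have p4 := perfect ha (hp 4 (by norm_num))
  -- a broadcasting spine vertex three to the left of base two is impossible
  have hleft : ∀ u : Vt N M, 0 < f u → ht u = 0 → pos u + 3 = bp (6 * w + 2) → False := by
    intro u hu h0 hpos
    have hd : D u (base M i1) = 2 := by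
      rw [D_base, h0]
      simp only [hi1, bp] at hpos ⊢
      omega
    have h1 := D_tri u (base M i1) (a i1)
    have h2 := ha i1
    rw [D_comm (base M i1)] at h1
    have hne : a i1 ≠ u := by
      intro h
      rcases p1 with ⟨_, h4⟩ | ⟨_, _, i', h5, h6, _, h8⟩
      · change D (a i1) (base M i1) = 0 at h4
        rw [h] at h4
        omega
      · have h9 : i'.val = 6 * w := by
          have : i'.val ≠ 6 * w + 1 := fun h => h5 (Fin.ext h)
          simp only at h6
          omega
        change D (a i1) (base M i') ≤ 2 at h8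
        rw [h, D_base, h9, h0] at h8
        simp only [bp] at h8 hpos
        omega
    have := hhear u (a i1) hu hne (by omega)
    omega
  -- the ball of base two
  set v := a i2 with hv
  have hv0 : 0 < f v := by
    have := ha i2
    omega
  have hconn : (tr N M).Connected := tr_connected (by omega)
  have hecc : ∀ k : ℕ, D (base M i5) v = k → k ≤ ecc (tr N M) v := by
    intro k hk
    rw [← hk, ← tr_dist, SimpleGraph.dist_comm]
    exact dist_le_ecc (tr_table _ _).1
  have hadj : ∃ u, (tr N M).Adj v u := by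
    have hne : v ≠ base M i5 := by
      intro h
      have h1 := ha i2
      rcases p2 with ⟨h2, h3⟩ | ⟨_, h3, _⟩
      · change D v (base M i2) = 0 at h3
        rw [h, D_base] at h3
        simp only [base, pos, ht, hi5, hi2, bp] at h3
        omega
      · change D v (base M i2) ≤ 2 at h3
        rw [h, D_base] at h3
        simp only [base, pos, ht, hi5, hi2, bp] at h3
        omega
    obtain ⟨w', hw', _⟩ := tr_h2 (base M i5) v hne.symm
    exact ⟨w', by rw [SimpleGraph.adj_comm]; exact hw'⟩
  rcases p2 with ⟨hf2, hd2⟩ | ⟨hf4, hd2, i', hne', hdiv, _, hd3⟩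
  · -- value two at the base itself
    change f v = 2 at hf2
    change D v (base M i2) = 0 at hd2
    rw [D_base] at hd2
    have hht : ht v = 0 := by omega
    obtain ⟨x, hx⟩ := eq_spine hht
    have hxv : x.val = bp (6 * w + 2) := by
      rw [hx] at hd2
      simp only [pos, hi2] at hd2
      omega
    obtain ⟨u, hu1, hu2, hu3, hu4⟩ := blocked hf hv0 hadj (by
      rw [hf2]
      refine lt_of_lt_of_le ?_ (hecc _ rfl)
      rw [hx, D_spine, hxv]
      simp only [base, pos, ht, hi5, bp]
      omega)
    rw [tr_dist] at hu4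
    have hu5 := hhear u v hu2 (Ne.symm hu1) hv0
    rw [hx, D_spine, hxv] at hu4 hu5
    rw [← hx, hf2] at hu4 hu5
    have hhu : ht u = 0 := by
      by_contra hne
      obtain ⟨j, hj⟩ := ht_pos (Nat.pos_of_ne_zero hne)
      have := ht_le u
      rw [hj] at hu4 hu5
      have hgap := bp_gap w j
      omega
    rw [hhu] at hu4 hu5
    rcases Nat.lt_or_ge (pos u) (bp (6 * w + 2)) with hlt | hge
    · exact hleft u hu2 hhu (by omega)
    · -- three to the right
      have hd : D u (base M i3) = 1 := by
        rw [D_base, hhu]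
        simp only [hi3, bp] at hu4 hu5 hge ⊢
        omega
      have h1 := D_tri u (base M i3) (a i3)
      have h2 := ha i3
      rw [D_comm (base M i3)] at h1
      have hne : a i3 ≠ u := by
        intro h
        rcases p3 with ⟨_, h4⟩ | ⟨_, _, i', h5, h6, h7, h8⟩
        · change D (a i3) (base M i3) = 0 at h4
          rw [h] at h4
          omega
        · have h9 : i' = i2 := by
            apply Fin.ext
            have : i'.val ≠ 6 * w + 3 := fun h => h5 (Fin.ext h)
            simp only [hi2] at h6 ⊢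
            omega
          rw [h9] at h7
          change v = a i3 at h7
          exact hu1 (h.symm.trans h7.symm)
      have := hhear u (a i3) hu2 hne (by omega)
      omega
  · -- value four in the middle of the pair
    change f v = 4 at hf4
    change D v (base M i2) ≤ 2 at hd2
    change D v (base M i') ≤ 2 at hd3
    have hi'3 : i'.val = 6 * w + 3 := by
      have : i'.val ≠ 6 * w + 2 := fun h => hne' (Fin.ext h)
      simp only at hdiv
      omega
    rw [D_base] at hd2 hd3
    rw [hi'3] at hd3
    have hht : ht v = 0 := by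
      simp only [hi2, bp] at hd2 hd3
      omega
    have hpv : pos v = bp (6 * w + 2) + 2 := by
      simp only [hi2, bp] at hd2 hd3 ⊢
      omega
    obtain ⟨x, hx⟩ := eq_spine hht
    have hxv : x.val = bp (6 * w + 2) + 2 := by
      rw [hx] at hpv
      exact hpv
    obtain ⟨u, hu1, hu2, hu3, hu4⟩ := blocked hf hv0 hadj (by
      rw [hf4]
      refine lt_of_lt_of_le ?_ (hecc _ rfl)
      rw [hx, D_spine, hxv]
      simp only [base, pos, ht, hi5, bp]
      omega)
    rw [tr_dist] at hu4
    have hu5 := hhear u v hu2 (Ne.symm hu1) hv0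
    rw [hx, D_spine, hxv] at hu4 hu5
    rw [← hx, hf4] at hu4 hu5
    have hhu : ht u = 0 := by
      by_contra hne
      obtain ⟨j, hj⟩ := ht_pos (Nat.pos_of_ne_zero hne)
      have := ht_le u
      rw [hj] at hu4 hu5
      have hgap := bp_gap w j
      omega
    rw [hhu] at hu4 hu5
    rcases Nat.lt_or_ge (pos u) (bp (6 * w + 2)) with hlt | hge
    · exact hleft u hu2 hhu (by omega)
    · -- seven to the right of base two
      have hd : D u (base M i4) = 2 := by
        rw [D_base, hhu]
        simp only [hi4, bp] at hu4 hu5 hge ⊢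
        omega
      have h1 := D_tri u (base M i4) (a i4)
      have h2 := ha i4
      rw [D_comm (base M i4)] at h1
      have hne : a i4 ≠ u := by
        intro h
        rcases p4 with ⟨_, h4⟩ | ⟨_, _, i'', h5, h6, h7, h8⟩
        · change D (a i4) (base M i4) = 0 at h4
          rw [h] at h4
          omega
        · have h9 : i''.val = 6 * w + 5 := by
            have : i''.val ≠ 6 * w + 4 := fun h => h5 (Fin.ext h)
            simp only at h6
            omega
          change D (a i4) (base M i'') ≤ 2 at h8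
          rw [h, D_base, h9, hhu] at h8
          simp only [bp] at h8 hu4 hu5
          omega
      have := hhear u (a i4) hu2 hne (by omega)
      omega

/-- the lower bound -/
theorem iH_tr (k : ℕ) : 4 * (3 * (8 * k ^ 2 + 1)) + k ≤
    iH (tr (3 * (8 * k ^ 2 + 1)) (4 * (3 * (8 * k ^ 2 + 1)) + k)) := by
  set W := 8 * k ^ 2 + 1 with hW
  set N := 3 * W with hN
  set M := 4 * N + k with hM
  obtain ⟨f, hf, hsum⟩ := exists_maximalHearing (tr N M)
  rw [← hsum]
  by_contra hcon
  push Not at hcon
  have hgood := good_of_maximalHearing hf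
  have hdom : ∀ x : Vt N M, ∃ v, 0 < f v ∧ D x v ≤ f v := by
    intro x
    obtain ⟨v, h1, _, h3⟩ := hgood.dom x
    exact ⟨v, h1, by rwa [tr_dist] at h3⟩
  choose a ha using assign hcon hdom
  -- the excess
  let exc : Vt N M → ℕ := fun v => 2 * f v - 4 * (Iv a v).card
  have hexc : ∀ v, exc v + 4 * (Iv a v).card = 2 * f v := by
    intro v
    have := Iv_card_le ha v
    simp only [exc]
    omega
  have hexcsum : ∑ v, exc v < 2 * k := by
    have h1 : ∑ v, (exc v + 4 * (Iv a v).card) = ∑ v, 2 * f v :=
      Finset.sum_congr rfl fun v _ => hexc v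
    rw [Finset.sum_add_distrib, ← Finset.mul_sum, ← Finset.mul_sum, sum_Iv] at h1
    omega
  have hexcle : ∀ v, exc v < 2 * k := fun v =>
    lt_of_le_of_lt (Finset.single_le_sum (f := exc) (fun _ _ => Nat.zero_le _)
      (Finset.mem_univ v)) hexcsum
  have hIv : ∀ v, (Iv a v).card ≤ 4 * k := by
    intro v
    rcases (Iv a v).eq_empty_or_nonempty with h | h
    · rw [h]; simp
    · obtain ⟨i, _, j, _, h0, h1, _, h2⟩ := Iv_bounds ha h
      have h3 := hexc v
      have h4 := hexcle v
      omega
  -- the imperfect indices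
  let Imp : Finset (Fin (2 * N)) := univ.filter fun i => exc (a i) ≠ 0
  have hImp : Imp.card ≤ 8 * k ^ 2 := by
    have h1 : Imp.card ≤ ∑ v, (if exc v = 0 then 0 else (Iv a v).card) := by
      rw [Finset.card_eq_sum_card_fiberwise (f := a) (s := Imp) (t := univ)
        (fun i _ => Finset.mem_univ _)]
      apply Finset.sum_le_sum
      intro v _
      split_ifs with h
      · apply le_of_eq
        rw [Finset.card_eq_zero, Finset.filter_eq_empty_iff]
        intro i hi hav
        exact (Finset.mem_filter.1 hi).2 (hav ▸ h)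
      · apply Finset.card_le_card
        intro i hi
        exact mem_Iv.2 (Finset.mem_filter.1 hi).2
    have h2 : ∑ v, (if exc v = 0 then 0 else (Iv a v).card) ≤ ∑ v, 4 * k * exc v := by
      apply Finset.sum_le_sum
      intro v _
      split_ifs with h
      · exact Nat.zero_le _
      · have := hIv v
        have h3 : 1 ≤ exc v := Nat.one_le_iff_ne_zero.2 h
        nlinarith
    rw [← Finset.mul_sum] at h2
    have h3 : 4 * k * ∑ v, exc v ≤ 4 * k * (2 * k) := Nat.mul_le_mul_left _ hexcsum.le
    nlinarith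
  -- a perfect window
  by_cases hwin : ∃ w, w < W ∧ ∀ t (ht : t < 6) (h : 6 * w + t < 2 * N),
      exc (a ⟨6 * w + t, h⟩) = 0
  · obtain ⟨w, hw, hall⟩ := hwin
    refine window hf ha w (by omega) (fun t ht => ?_)
    have h1 := hall t ht (by omega)
    have h2 := hexc (a ⟨6 * w + t, by omega⟩)
    omega
  · push Not at hwin
    have hch : ∀ w : Fin W, ∃ i ∈ Imp, i.val / 6 = w.val := by
      intro w
      obtain ⟨t, ht, h, hne⟩ := hwin w.val w.2
      refine ⟨⟨6 * w.val + t, h⟩, Finset.mem_filter.2 ⟨Finset.mem_univ _, hne⟩, ?_⟩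
      simp only
      omega
    choose g hg1 hg2 using hch
    have hinj : Function.Injective g := by
      intro x y hxy
      apply Fin.ext
      rw [← hg2 x, ← hg2 y, hxy]
    have h1 : (univ.image g).card ≤ Imp.card := Finset.card_le_card (by
      intro i hi
      obtain ⟨w, _, rfl⟩ := Finset.mem_image.1 hi
      exact hg1 w)
    rw [Finset.card_image_of_injective _ hinj, Finset.card_univ, Fintype.card_fin] at h1
    omega

/-- The difference `i_h - i_bn` is unbounded on trees. -/
theorem unbounded (k : ℕ) : ∃ (V : Type) (_ : Fintype V) (G : SimpleGraph V), G.Connected ∧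
    iBn G + k ≤ iH G := by
  refine ⟨Vt (3 * (8 * k ^ 2 + 1)) (4 * (3 * (8 * k ^ 2 + 1)) + k), inferInstance, tr _ _,
    tr_connected (by omega), ?_⟩
  exact (Nat.add_le_add_right iBn_tr k).trans (iH_tr k)

end Q107.Bn.Comb
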