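import Mathlib

/-!
# Boundary independent and hearing independent broadcasts on finite graphs
-/

set_option autoImplicit false

namespace Q107.Bn

open SimpleGraph Finset

/-- The eccentricity of `v` in its component. -/
noncomputable def ecc {V : Type} (G : SimpleGraph V) (v : V) : ℕ :=
  sSup {d | ∃ u, G.Reachable v u ∧ G.dist v u = d}

/-- Broadcasts: `f(v) = 1` if `v` forms a component `K₁`, and `f(v)` is at most the eccentricity
of `v` in its component otherwise. -/
def IsBroadcast {V : Type} (G : SimpleGraph V) (f : V → ℕ) : Prop :=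
  ∀ v, ((∀ u, ¬ G.Adj v u) → f v = 1) ∧ ((∃ u, G.Adj v u) → f v ≤ ecc G v)

/-- The vertex `u` hears `f` from the broadcasting vertex `v`. -/
def Hears {V : Type} (G : SimpleGraph V) (f : V → ℕ) (u v : V) : Prop :=
  0 < f v ∧ G.Reachable u v ∧ G.dist u v ≤ f v

/-- `f` is boundary independent: every vertex `x` that hears `f` from at least two vertices
satisfies `d(x, u) ≥ f(u)` for all broadcasting vertices `u` (distances between different
components are infinite). -/
def IsBnIndep {V : Type} (G : SimpleGraph V) (f : V → ℕ) : Prop :=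
  ∀ x, (∃ u v, u ≠ v ∧ Hears G f x u ∧ Hears G f x v) →
    ∀ u, 0 < f u → G.Reachable x u → f u ≤ G.dist x u

/-- `f` is hearing independent: no broadcasting vertex hears `f` from another one. -/
def IsHearingIndep {V : Type} (G : SimpleGraph V) (f : V → ℕ) : Prop :=
  ∀ u v, 0 < f u → v ≠ u → ¬ Hears G f u v

/-- `f` is a maximal boundary independent broadcast. -/
def IsMaximalBn {V : Type} (G : SimpleGraph V) (f : V → ℕ) : Prop :=
  IsBroadcast G f ∧ IsBnIndep G f ∧
    ∀ g : V → ℕ, IsBroadcast G g → (∀ v, f v ≤ g v) → g ≠ f → ¬ IsBnIndep G g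

/-- `f` is a maximal hearing independent broadcast. -/
def IsMaximalHearing {V : Type} (G : SimpleGraph V) (f : V → ℕ) : Prop :=
  IsBroadcast G f ∧ IsHearingIndep G f ∧
    ∀ g : V → ℕ, IsBroadcast G g → (∀ v, f v ≤ g v) → g ≠ f → ¬ IsHearingIndep G g

/-- `i_bn(G)`: the minimum cost of a maximal boundary independent broadcast. -/
noncomputable def iBn {V : Type} [Fintype V] (G : SimpleGraph V) : ℕ :=
  sInf {k | ∃ f : V → ℕ, IsMaximalBn G f ∧ ∑ v, f v = k}

/-- `i_h(G)`: the minimum cost of a maximal hearing independent broadcast. -/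
noncomputable def iH {V : Type} [Fintype V] (G : SimpleGraph V) : ℕ :=
  sInf {k | ∃ f : V → ℕ, IsMaximalHearing G f ∧ ∑ v, f v = k}

end Q107.Bn
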