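import Pool.Agent.Q107.Bn.Defs

/-!
# Merging overlapping balls
-/

set_option autoImplicit false

namespace Q107.Bn

open SimpleGraph Finset

variable {V : Type} {G : SimpleGraph V}

/-! ### distances -/

lemma tri {a b c : V} (h1 : G.Reachable a b) :
    G.dist a c ≤ G.dist a b + G.dist b c := h1.dist_triangle_left c

/-- a vertex at prescribed distance on a geodesic -/
lemma geod {u v : V} (h : G.Reachable u v) {i : ℕ} (hi : i ≤ G.dist u v) :
    ∃ c, G.Reachable u c ∧ G.dist u c = i ∧ G.dist c v = G.dist u v - i := by
  obtain ⟨p, hp⟩ := h.exists_walk_length_eq_dist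
  refine ⟨p.getVert i, ⟨p.take i⟩, ?_, ?_⟩
  · have h1 : (p.take i).length = G.dist u (p.getVert i) :=
      length_eq_dist_of_subwalk hp (p.isSubwalk_take i)
    rw [← h1, Walk.take_length]
    omega
  · have h1 : (p.drop i).length = G.dist (p.getVert i) v :=
      length_eq_dist_of_subwalk hp (p.isSubwalk_drop i)
    rw [← h1, Walk.drop_length, hp]

/-- leaving a set along a walk -/
lemma exit {P : V → Prop} {a b : V} (h : G.Reachable a b) (ha : P a) (hb : ¬ P b) :
    ∃ z y, G.Adj z y ∧ P z ∧ ¬ P y ∧ G.Reachable a z := by
  obtain ⟨p⟩ := h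
  induction p with
  | nil => exact absurd ha hb
  | cons h p ih =>
    rename_i x y z
    by_cases hy : P y
    · obtain ⟨z', y', h1, h2, h3, h4⟩ := ih hy hb
      exact ⟨z', y', h1, h2, h3, h.reachable.trans h4⟩
    · exact ⟨x, y, h, ha, hy, Reachable.refl x⟩

/-! ### good functions -/

/-- dominating, and every ball touches another one or covers its component -/
structure Good (G : SimpleGraph V) (f : V → ℕ) : Prop where
  dom : ∀ x, ∃ v, Hears G f x v
  touch : ∀ v, 0 < f v →
    (∃ u, u ≠ v ∧ 0 < f u ∧ G.Reachable u v ∧ G.dist u v ≤ f u + f v) ∨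
      ∀ x, G.Reachable x v → G.dist x v ≤ f v

/-- pairwise separated balls -/
def Sep (G : SimpleGraph V) (f : V → ℕ) : Prop :=
  ∀ u v, u ≠ v → 0 < f u → 0 < f v → G.Reachable u v → f u + f v ≤ G.dist u v

lemma merge_aux [DecidableEq V] {f : V → ℕ} (hf : Good G f) {u v c : V}
    (hu : 0 < f u) (hv : 0 < f v) (huv : u ≠ v) (hru : G.Reachable c u) (hrv : G.Reachable c v)
    (hcu : G.dist c u ≤ f v) (hcv : G.dist c v ≤ f u)
    (hy : (∀ x, G.Reachable x c → G.dist x c ≤ f u + f v) ∨
      ∃ y, G.Reachable y c ∧ G.dist y c ≤ f u + f v ∧ f u < G.dist y u ∧ f v < G.dist y v) :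
    Good G (fun w => if w = c then ∑ s ∈ ({u, v, c} : Finset V), f s else
      if w ∈ ({u, v, c} : Finset V) then 0 else f w) := by
  set S : Finset V := {u, v, c} with hS
  set R : ℕ := ∑ s ∈ S, f s with hR
  set g : V → ℕ := fun w => if w = c then R else if w ∈ S then 0 else f w with hg
  have huS : u ∈ S := by simp [hS]
  have hvS : v ∈ S := by simp [hS]
  have hcS : c ∈ S := by simp [hS]
  have hgc : g c = R := by simp [hg]
  have hgn : ∀ w, w ∉ S → g w = f w := by
    intro w hw
    have : w ≠ c := fun h => hw (h ▸ hcS)
    simp [hg, this, hw]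
  have hRuv : f u + f v ≤ R := by
    have h1 : ∑ s ∈ ({u, v} : Finset V), f s ≤ R := by
      apply Finset.sum_le_sum_of_subset
      intro w hw
      simp only [hS, Finset.mem_insert, Finset.mem_singleton] at hw ⊢
      tauto
    rwa [Finset.sum_pair huv] at h1
  have hRc : f c ≤ R := Finset.single_le_sum (f := f) (fun _ _ => Nat.zero_le _) hcS
  have hRsum : c ≠ u → c ≠ v → R = f u + f v + f c := by
    intro h1 h2
    rw [hR, hS, Finset.sum_insert, Finset.sum_insert, Finset.sum_singleton]
    · ring
    · simpa using h2.symm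
    · simp only [Finset.mem_insert, Finset.mem_singleton, not_or]
      exact ⟨huv, h1.symm⟩
  have hSr : ∀ s ∈ S, G.Reachable c s := by
    intro s hs
    simp only [hS, Finset.mem_insert, Finset.mem_singleton] at hs
    rcases hs with rfl | rfl | rfl
    · exact hru
    · exact hrv
    · exact Reachable.refl _
  -- the new ball contains the old ones
  have hbig : ∀ s ∈ S, ∀ (k : ℕ) (x : V), G.Reachable x s → G.dist x s ≤ f s + k →
      G.dist x c ≤ R + k := by
    intro s hs k x hx hd
    have h1 := tri (c := c) hx
    simp only [hS, Finset.mem_insert, Finset.mem_singleton] at hs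
    rcases hs with rfl | rfl | rfl
    · rw [G.dist_comm (u := s) (v := c)] at h1
      omega
    · rw [G.dist_comm (u := s) (v := c)] at h1
      omega
    · omega
  constructor
  · intro x
    obtain ⟨s, h1, h2, h3⟩ := hf.dom x
    by_cases hs : s ∈ S
    · refine ⟨c, ?_, h2.trans (hSr s hs).symm, ?_⟩
      · rw [hgc]; omega
      · rw [hgc]
        exact hbig s hs 0 x h2 h3
    · refine ⟨s, ?_, h2, ?_⟩
      · rwa [hgn s hs]
      · rwa [hgn s hs]
  · intro w hw
    by_cases hwc : w = c
    · subst hwc
      rw [hgc]
      by_cases hcov : ∀ x, G.Reachable x w → G.dist x w ≤ R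
      · exact Or.inr hcov
      · left
        -- a vertex of the new ball that is in none of the old ones
        have hex : ∃ y, G.Reachable y w ∧ G.dist y w ≤ R ∧ ∀ s ∈ S, f s < G.dist y s := by
          push Not at hcov
          obtain ⟨x0, hx0, hx0d⟩ := hcov
          rcases hy with hy | ⟨y, hy1, hy2, hy3, hy4⟩
          · have := hy x0 hx0
            omega
          · by_cases hyc : f w < G.dist y w
            · refine ⟨y, hy1, by omega, fun s hs => ?_⟩
              simp only [hS, Finset.mem_insert, Finset.mem_singleton] at hs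
              rcases hs with rfl | rfl | rfl
              · exact hy3
              · exact hy4
              · exact hyc
            · have hwu : w ≠ u := fun h => by subst h; omega
              have hwv : w ≠ v := fun h => by subst h; omega
              have hR' := hRsum hwu hwv
              have hfw : 0 < f w := by
                by_contra h0
                have h1 : G.dist y w = 0 := by omega
                have h2 := hy1.dist_eq_zero_iff.1 h1
                subst h2
                omega
              -- a vertex at distance `max + 1`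
              obtain ⟨c', h1, h2, _⟩ := geod (i := max (f u + f v) (f w) + 1) hx0.symm (by
                rw [G.dist_comm]
                omega)
              rw [G.dist_comm] at h2
              refine ⟨c', h1.symm, by omega, fun s hs => ?_⟩
              have h3 := tri (a := c') (b := s) (c := w) (h1.symm.trans (hSr s hs))
              have h4 := G.dist_comm (u := s) (v := w)
              simp only [hS, Finset.mem_insert, Finset.mem_singleton] at hs
              rcases hs with rfl | rfl | rfl
              · omega
              · omega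
              · omega
        obtain ⟨y, hy1, hy2, hy3⟩ := hex
        obtain ⟨j, h1, h2, h3⟩ := hf.dom y
        have hjS : j ∉ S := fun h => by
          have := hy3 j h
          omega
        refine ⟨j, fun h => hjS (h ▸ hcS), ?_, h2.symm.trans hy1, ?_⟩
        · rwa [hgn j hjS]
        · rw [hgn j hjS]
          have h4 := tri (c := w) h2.symm
          rw [G.dist_comm (u := j) (v := y)] at h4
          omega
    · have hwS : w ∉ S := by
        intro h
        simp [hg, hwc, h] at hw
      rw [hgn w hwS] at hw ⊢
      rcases hf.touch w hw with ⟨s, h1, h2, h3, h4⟩ | h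
      · left
        by_cases hs : s ∈ S
        · refine ⟨c, fun h => hwS (h ▸ hcS), ?_, (hSr s hs).trans h3, ?_⟩
          · rw [hgc]; omega
          · rw [hgc, G.dist_comm]
            apply hbig s hs (f w) w h3.symm
            rw [G.dist_comm]
            exact h4
        · refine ⟨s, h1, ?_, h3, ?_⟩
          · rwa [hgn s hs]
          · rwa [hgn s hs]
      · exact Or.inr h

variable [Fintype V]

open Classical in
/-- the number of broadcasting vertices -/
noncomputable def supp (f : V → ℕ) : ℕ := (univ.filter fun v => 0 < f v).card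

lemma merge {f : V → ℕ} (hf : Good G f) {u v : V} (hu : 0 < f u) (hv : 0 < f v)
    (huv : u ≠ v) (hr : G.Reachable u v) (hd : G.dist u v < f u + f v) :
    ∃ g : V → ℕ, Good G g ∧ ∑ w, g w = ∑ w, f w ∧ supp g < supp f := by
  classical
  -- it suffices to find the new centre
  have suff : ∀ c, G.Reachable c u → G.Reachable c v → G.dist c u ≤ f v → G.dist c v ≤ f u →
      ((∀ x, G.Reachable x c → G.dist x c ≤ f u + f v) ∨
      ∃ y, G.Reachable y c ∧ G.dist y c ≤ f u + f v ∧ f u < G.dist y u ∧ f v < G.dist y v) →
      ∃ g : V → ℕ, Good G g ∧ ∑ w, g w = ∑ w, f w ∧ supp g < supp f := by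
    intro c hru hrv hcu hcv hy
    refine ⟨_, merge_aux hf hu hv huv hru hrv hcu hcv hy, ?_, ?_⟩
    · have hS : c ∈ ({u, v, c} : Finset V) := by simp
      rw [← Finset.sum_add_sum_compl ({u, v, c} : Finset V),
        ← Finset.sum_add_sum_compl ({u, v, c} : Finset V) f]
      congr 1
      · rw [Finset.sum_eq_single_of_mem c hS]
        · simp
        · intro b hb hbc
          simp only [hbc, if_false, hb, if_true]
      · apply Finset.sum_congr rfl
        intro w hw
        rw [Finset.mem_compl] at hw
        have : w ≠ c := fun h => hw (h ▸ hS)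
        simp only [this, if_false, hw]
    · unfold supp
      beta_reduce
      have hsub : (univ.filter fun w => 0 < (if w = c then ∑ s ∈ ({u, v, c} : Finset V), f s else
          if w ∈ ({u, v, c} : Finset V) then 0 else f w)) ⊆
          insert c (((univ.filter fun w => 0 < f w).erase u).erase v) := by
        intro w hw
        rw [Finset.mem_filter] at hw
        by_cases hwc : w = c
        · rw [hwc]; exact Finset.mem_insert_self _ _
        · apply Finset.mem_insert_of_mem
          by_cases hwS : w ∈ ({u, v, c} : Finset V)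
          · simp [hwc, hwS] at hw
          · simp only [Finset.mem_insert, Finset.mem_singleton, not_or] at hwS
            have h2 := hw.2
            simp only [hwc, if_false, Finset.mem_insert, Finset.mem_singleton, hwS.1, hwS.2.1,
              or_self] at h2
            rw [Finset.mem_erase, Finset.mem_erase, Finset.mem_filter]
            exact ⟨hwS.2.1, hwS.1, Finset.mem_univ _, h2⟩
      have h1 := Finset.card_le_card hsub
      have h2 := Finset.card_insert_le c (((univ.filter fun w => 0 < f w).erase u).erase v)
      have h3 : v ∈ (univ.filter fun w => 0 < f w).erase u := by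
        rw [Finset.mem_erase, Finset.mem_filter]
        exact ⟨huv.symm, Finset.mem_univ _, hv⟩
      have h4 : u ∈ univ.filter fun w => 0 < f w := by
        rw [Finset.mem_filter]
        exact ⟨Finset.mem_univ _, hu⟩
      rw [Finset.card_erase_of_mem h3, Finset.card_erase_of_mem h4] at h2
      have h5 := Finset.card_pos.2 ⟨_, h3⟩
      rw [Finset.card_erase_of_mem h4] at h5
      omega
  -- the two possible centres
  obtain ⟨c1, hc1r, hc1u, hc1v⟩ := geod (i := min (G.dist u v) (f v)) hr (min_le_left _ _)
  have hc1u' : G.dist c1 u ≤ f v := by rw [G.dist_comm, hc1u]; exact min_le_right _ _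
  have hc1v' : G.dist c1 v + 1 ≤ f u := by
    rw [hc1v]
    rcases le_total (G.dist u v) (f v) with h | h
    · rw [min_eq_left h]; omega
    · rw [min_eq_right h]; omega
  obtain ⟨c2, hc2r, hc2v, hc2u⟩ := geod (i := min (G.dist v u) (f u)) hr.symm (min_le_left _ _)
  have hc2v' : G.dist c2 v ≤ f u := by rw [G.dist_comm, hc2v]; exact min_le_right _ _
  have hc2u' : G.dist c2 u + 1 ≤ f v := by
    rw [hc2u]
    have := G.dist_comm (u := u) (v := v)
    rcases le_total (G.dist v u) (f u) with h | h
    · rw [min_eq_left h]; omega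
    · rw [min_eq_right h]; omega
  by_cases hall : ∀ x, G.Reachable x u → G.dist x u ≤ f u ∨ G.dist x v ≤ f v
  · refine suff c1 hc1r.symm (hc1r.symm.trans hr) hc1u' (by omega) (Or.inl fun x hx => ?_)
    rcases hall x (hx.trans hc1r.symm) with h | h
    · have := tri (a := x) (b := u) (c := c1) (hx.trans hc1r.symm)
      rw [G.dist_comm (u := u) (v := c1)] at this
      omega
    · have := tri (a := x) (b := v) (c := c1) ((hx.trans hc1r.symm).trans hr)
      rw [G.dist_comm (u := v) (v := c1)] at this
      omega
  · push Not at hall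
    obtain ⟨x, hx, hxu, hxv⟩ := hall
    obtain ⟨z, y, hzy, hz, hy, hrz⟩ := exit (P := fun x => G.dist x u ≤ f u ∨ G.dist x v ≤ f v)
      hx.symm (Or.inl (by simp)) (by push Not; exact ⟨hxu, hxv⟩)
    push Not at hy
    have hyz : G.dist y z = 1 := dist_eq_one_iff_adj.2 hzy.symm
    have hryu : G.Reachable y u := hzy.symm.reachable.trans hrz.symm
    rcases hz with hz | hz
    · -- the ball of `u` is left: use the centre near `u`
      have hr2 : G.Reachable c2 u := hc2r.symm.trans hr.symm
      refine suff c2 hr2 hc2r.symm (by omega) hc2v' (Or.inr ⟨y, hryu.trans hr2.symm, ?_, hy.1,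
        hy.2⟩)
      have h1 := tri (a := y) (b := u) (c := c2) hryu
      have h2 := tri (a := y) (b := z) (c := u) hzy.symm.reachable
      rw [G.dist_comm (u := u) (v := c2)] at h1
      omega
    · refine suff c1 hc1r.symm (hc1r.symm.trans hr) hc1u' (by omega) (Or.inr ⟨y,
        hryu.trans hc1r, ?_, hy.1, hy.2⟩)
      have h1 := tri (a := y) (b := v) (c := c1) (hryu.trans hr)
      have h2 := tri (a := y) (b := z) (c := v) hzy.symm.reachable
      rw [G.dist_comm (u := v) (v := c1)] at h1
      omega

/-- every good function can be made separated without changing the weight -/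
lemma exists_sep (n : ℕ) : ∀ f : V → ℕ, Good G f → supp f ≤ n →
    ∃ g : V → ℕ, Good G g ∧ Sep G g ∧ ∑ w, g w = ∑ w, f w := by
  induction n with
  | zero =>
    intro f hf hn
    refine ⟨f, hf, ?_, rfl⟩
    intro u v _ hu
    classical
    unfold supp at hn
    have : 0 < (univ.filter fun w => 0 < f w).card :=
      Finset.card_pos.2 ⟨u, Finset.mem_filter.2 ⟨Finset.mem_univ u, hu⟩⟩
    omega
  | succ n ih =>
    intro f hf hn
    by_cases hs : Sep G f
    · exact ⟨f, hf, hs, rfl⟩
    · unfold Sep at hs
      push Not at hs
      obtain ⟨u, v, huv, hu, hv, hr, hd⟩ := hs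
      obtain ⟨g, hg, hsum, hlt⟩ := merge hf hu hv huv hr hd
      obtain ⟨g', h1, h2, h3⟩ := ih g hg (by omega)
      exact ⟨g', h1, h2, h3.trans hsum⟩

/-! ### separated functions and boundary independence -/

omit [Fintype V] in
lemma bn_of_sep {f : V → ℕ} (h : Sep G f) : IsBnIndep G f := by
  rintro x ⟨u, v, huv, ⟨hu1, hu2, hu3⟩, hv1, hv2, hv3⟩ w hw hxw
  have huv' := h u v huv hu1 hv1 (hu2.symm.trans hv2)
  by_cases hwu : w = u
  · subst hwu
    have := tri (c := v) hu2.symm
    rw [G.dist_comm (u := w) (v := x)] at this
    omega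
  · have h1 := h w u hwu hw hu1 (hxw.symm.trans hu2)
    have h2 := tri (c := u) hxw.symm
    rw [G.dist_comm (u := w) (v := x)] at h2
    omega

omit [Fintype V] in
lemma sep_of_bn {f : V → ℕ} (h : IsBnIndep G f) : Sep G f := by
  intro u v huv hu hv hr
  by_contra hcon
  push Not at hcon
  by_cases hle : G.dist u v ≤ f v
  · have := h u ⟨u, v, huv, ⟨hu, Reachable.refl u, by simp⟩, hv, hr, hle⟩ u hu (Reachable.refl u)
    rw [SimpleGraph.dist_self] at this
    omega
  · push Not at hle
    obtain ⟨c, hc1, hc2, hc3⟩ := geod (i := f v) hr.symm (by rw [G.dist_comm]; exact hle.le)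
    have hvc : G.dist c v = f v := by rw [G.dist_comm]; exact hc2
    rw [G.dist_comm (u := v) (v := u)] at hc3
    have := h c ⟨u, v, huv, ⟨hu, hc1.symm.trans hr.symm, by omega⟩, hv, hc1.symm, hvc.le⟩ u hu
      (hc1.symm.trans hr.symm)
    omega

lemma dist_le_ecc {v u : V} (h : G.Reachable v u) : G.dist v u ≤ ecc G v := by
  apply le_csSup
  · have : {d | ∃ u, G.Reachable v u ∧ G.dist v u = d}.Finite :=
      (Set.finite_range (fun u => G.dist v u)).subset (by
        rintro d ⟨u, _, rfl⟩
        exact ⟨u, rfl⟩)
    exact this.bddAbove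
  · exact ⟨u, h, rfl⟩

lemma exists_ecc (G : SimpleGraph V) (v : V) : ∃ u, G.Reachable v u ∧ G.dist v u = ecc G v := by
  have h2 : {d | ∃ u, G.Reachable v u ∧ G.dist v u = d}.Nonempty := ⟨_, v, Reachable.refl v, rfl⟩
  have h3 : BddAbove {d | ∃ u, G.Reachable v u ∧ G.dist v u = d} := by
    have : {d | ∃ u, G.Reachable v u ∧ G.dist v u = d}.Finite :=
      (Set.finite_range (fun u => G.dist v u)).subset (by
        rintro d ⟨u, _, rfl⟩
        exact ⟨u, rfl⟩)
    exact this.bddAbove
  exact Nat.sSup_mem h2 h3

lemma ecc_pos {v : V} (h : ∃ u, G.Adj v u) : 0 < ecc G v := by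
  obtain ⟨u, hu⟩ := h
  have h1 := dist_le_ecc (G := G) hu.reachable
  rw [dist_eq_one_iff_adj.2 hu] at h1
  omega

omit [Fintype V] in
lemma isolated {v : V} (h : ∀ u, ¬ G.Adj v u) {x : V} (hx : G.Reachable v x) : x = v := by
  obtain ⟨p⟩ := hx
  cases p with
  | nil => rfl
  | cons h' _ => exact absurd h' (h _)

open Classical in
/-- the truncated function -/
noncomputable def trunc (G : SimpleGraph V) (f : V → ℕ) (v : V) : ℕ :=
  min (f v) (if ∃ u, G.Adj v u then ecc G v else 1)

/-- Every good function has a maximal boundary independent broadcast of at most its weight. -/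
theorem good_bn {f : V → ℕ} (hf : Good G f) :
    ∃ g : V → ℕ, IsMaximalBn G g ∧ ∑ v, g v ≤ ∑ v, f v := by
  classical
  obtain ⟨g, hg, hsep, hsum⟩ := exists_sep (supp f) f hf le_rfl
  refine ⟨trunc G g, ?_, hsum ▸ Finset.sum_le_sum fun v _ => min_le_left _ _⟩
  have hle : ∀ v, trunc G g v ≤ g v := fun v => min_le_left _ _
  have hiso : ∀ v, (∀ u, ¬ G.Adj v u) → 0 < g v := by
    intro v hv
    obtain ⟨w, h1, h2, _⟩ := hg.dom v
    rw [isolated hv h2] at h1
    exact h1
  have hpos : ∀ v, 0 < g v → 0 < trunc G g v := by
    intro v hv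
    unfold trunc
    split_ifs with h
    · exact lt_min hv (ecc_pos h)
    · exact lt_min hv one_pos
  have hsep' : Sep G (trunc G g) := by
    intro u v huv hu hv hr
    have := hsep u v huv (lt_of_lt_of_le hu (hle u)) (lt_of_lt_of_le hv (hle v)) hr
    have := hle u
    have := hle v
    omega
  have hdom' : ∀ x, ∃ v, Hears G (trunc G g) x v := by
    intro x
    obtain ⟨v, h1, h2, h3⟩ := hg.dom x
    refine ⟨v, hpos v h1, h2, ?_⟩
    unfold trunc
    split_ifs with h
    · refine le_min h3 ?_
      rw [G.dist_comm]
      exact dist_le_ecc h2.symm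
    · push Not at h
      have := isolated h h2.symm
      subst this
      simp
  refine ⟨?_, bn_of_sep hsep', ?_⟩
  · intro v
    constructor
    · intro h
      unfold trunc
      rw [if_neg (by push Not; exact h)]
      exact min_eq_right (hiso v h)
    · intro h
      unfold trunc
      rw [if_pos h]
      exact min_le_right _ _
  · intro h hb hge hne hbn
    have hsepH := sep_of_bn hbn
    have : ∃ v, trunc G g v < h v := by
      by_contra hcon
      push Not at hcon
      exact hne (funext fun v => le_antisymm (hcon v) (hge v))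
    obtain ⟨v, hv⟩ := this
    by_cases h0 : 0 < g v
    · have hp := hpos v h0
      by_cases hadj : ∃ u, G.Adj v u
      · have h1 := (hb v).2 hadj
        have h2 : trunc G g v = min (g v) (ecc G v) := by unfold trunc; rw [if_pos hadj]
        have h3 : g v < ecc G v := by
          by_contra hcon
          rw [min_eq_right (not_lt.1 hcon)] at h2
          omega
        have h4 : trunc G g v = g v := by rw [h2, min_eq_left h3.le]
        rcases hg.touch v h0 with ⟨u, h5, h6, h7, h8⟩ | hcov
        · have h9 := hsep u v h5 h6 h0 h7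
          -- the value at `u` is not truncated
          have h10 : trunc G g u = g u := by
            have hadju : ∃ w, G.Adj u w := by
              by_contra hcon
              push Not at hcon
              exact h5 (isolated hcon h7).symm
            have h11 : G.dist u v ≤ ecc G u := dist_le_ecc h7
            unfold trunc
            rw [if_pos hadju, min_eq_left (by omega)]
          have h12 := hsepH u v h5 (lt_of_lt_of_le (by rw [h10]; exact h6) (hge u))
            (lt_of_le_of_lt (Nat.zero_le _) hv) h7
          have h13 := hge u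
          omega
        · obtain ⟨x, hx1, hx2⟩ := exists_ecc G v
          have := hcov x hx1.symm
          rw [G.dist_comm] at this
          omega
      · push Not at hadj
        have h1 := (hb v).1 hadj
        omega
    · -- `v` does not broadcast under `g`
      obtain ⟨w, h1, h2, h3⟩ := hdom' v
      have hwv : w ≠ v := by
        rintro rfl
        have := hle w
        omega
      have h4 := hsepH v w hwv.symm (lt_of_le_of_lt (Nat.zero_le _) hv)
        (lt_of_lt_of_le h1 (hge w)) h2
      have h5 := hge w
      have h6 : 0 < h v := lt_of_le_of_lt (Nat.zero_le _) hv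
      omega

theorem iBn_le_of_good {f : V → ℕ} (hf : Good G f) : iBn G ≤ ∑ v, f v := by
  obtain ⟨g, hg, hle⟩ := good_bn hf
  have h : iBn G ≤ ∑ v, g v := Nat.sInf_le ⟨g, hg, rfl⟩
  exact h.trans hle

/-! ### maximal broadcasts are good -/

omit [Fintype V] in
lemma add_one_broadcast [DecidableEq V] {f : V → ℕ} (hb : IsBroadcast G f) {v : V}
    (hadj : ∃ u, G.Adj v u) (hlt : f v < ecc G v) :
    IsBroadcast G (Function.update f v (f v + 1)) := by
  intro w
  by_cases hw : w = v
  · subst hw
    rw [Function.update_self]
    refine ⟨fun h => ?_, fun _ => hlt⟩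
    obtain ⟨u, hu⟩ := hadj
    exact absurd hu (h u)
  · rw [Function.update_of_ne hw]
    exact hb w

lemma good_of_maximalBn {f : V → ℕ} (hf : IsMaximalBn G f) : Good G f := by
  classical
  obtain ⟨hb, hbn, hmax⟩ := hf
  have hsep := sep_of_bn hbn
  -- raising a value breaks separation
  have key : ∀ v, (∃ u, G.Adj v u) → f v < ecc G v →
      ∃ u, u ≠ v ∧ 0 < f u ∧ G.Reachable u v ∧ G.dist u v ≤ f u + f v := by
    intro v hadj hlt
    by_contra hcon
    push Not at hcon
    refine hmax _ (add_one_broadcast hb hadj hlt) (fun w => ?_) (fun h => ?_) (bn_of_sep ?_)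
    · by_cases hw : w = v
      · subst hw; rw [Function.update_self]; omega
      · rw [Function.update_of_ne hw]
    · have := congrFun h v
      rw [Function.update_self] at this
      omega
    · intro a b hab ha hb' hr
      by_cases hav : a = v
      · subst hav
        rw [Function.update_self]
        rw [Function.update_of_ne hab.symm] at hb' ⊢
        have := hcon b hab.symm hb' hr.symm
        rw [G.dist_comm] at this
        omega
      · by_cases hbv : b = v
        · subst hbv
          rw [Function.update_self]
          rw [Function.update_of_ne hab] at ha ⊢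
          have := hcon a hab ha hr
          omega
        · rw [Function.update_of_ne hav] at ha ⊢
          rw [Function.update_of_ne hbv] at hb' ⊢
          exact hsep a b hab ha hb' hr
  constructor
  · intro x
    by_contra hcon
    push Not at hcon
    have hx0 : f x = 0 := by
      by_contra h
      exact hcon x ⟨Nat.pos_of_ne_zero h, Reachable.refl x, by simp⟩
    have hadj : ∃ u, G.Adj x u := by
      by_contra h
      push Not at h
      have := (hb x).1 h
      omega
    obtain ⟨u, h1, h2, h3, h4⟩ := key x hadj (by rw [hx0]; exact ecc_pos hadj)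
    apply hcon u
    refine ⟨h2, h3.symm, ?_⟩
    rw [G.dist_comm]
    omega
  · intro v hv
    by_cases hadj : ∃ u, G.Adj v u
    · by_cases hlt : f v < ecc G v
      · exact Or.inl (key v hadj hlt)
      · right
        intro x hx
        rw [G.dist_comm]
        exact (dist_le_ecc hx.symm).trans (not_lt.1 hlt)
    · right
      push Not at hadj
      intro x hx
      rw [isolated hadj hx.symm, SimpleGraph.dist_self]
      omega

lemma good_of_maximalHearing {f : V → ℕ} (hf : IsMaximalHearing G f) : Good G f := by
  classical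
  obtain ⟨hb, hhi, hmax⟩ := hf
  have key : ∀ v, (∃ u, G.Adj v u) → f v < ecc G v →
      (∃ u, u ≠ v ∧ 0 < f u ∧ G.Reachable u v ∧ G.dist u v ≤ f v + 1) ∨
      (f v = 0 ∧ ∃ u, Hears G f v u) := by
    intro v hadj hlt
    by_contra hcon
    push Not at hcon
    obtain ⟨hcon1, hcon2⟩ := hcon
    refine hmax _ (add_one_broadcast hb hadj hlt) (fun w => ?_) (fun h => ?_) ?_
    · by_cases hw : w = v
      · subst hw; rw [Function.update_self]; omega
      · rw [Function.update_of_ne hw]
    · have := congrFun h v
      rw [Function.update_self] at this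
      omega
    · rintro a b ha hab ⟨h1, h2, h3⟩
      by_cases hbv : b = v
      · subst hbv
        rw [Function.update_self] at h3
        rw [Function.update_of_ne hab.symm] at ha
        have := hcon1 a hab.symm ha h2
        omega
      · rw [Function.update_of_ne hbv] at h1 h3
        by_cases hav : a = v
        · subst hav
          by_cases h0 : f a = 0
          · exact hcon2 h0 b ⟨h1, h2, h3⟩
          · exact hhi a b (Nat.pos_of_ne_zero h0) hab ⟨h1, h2, h3⟩
        · rw [Function.update_of_ne hav] at ha
          exact hhi a b ha hab ⟨h1, h2, h3⟩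
  constructor
  · intro x
    by_contra hcon
    push Not at hcon
    have hx0 : f x = 0 := by
      by_contra h
      exact hcon x ⟨Nat.pos_of_ne_zero h, Reachable.refl x, by simp⟩
    have hadj : ∃ u, G.Adj x u := by
      by_contra h
      push Not at h
      have := (hb x).1 h
      omega
    rcases key x hadj (by rw [hx0]; exact ecc_pos hadj) with ⟨u, h1, h2, h3, h4⟩ | ⟨_, u, hu⟩
    · apply hcon u
      refine ⟨h2, h3.symm, ?_⟩
      rw [G.dist_comm]
      omega
    · exact hcon u hu
  · intro v hv
    by_cases hadj : ∃ u, G.Adj v u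
    · by_cases hlt : f v < ecc G v
      · rcases key v hadj hlt with ⟨u, h1, h2, h3, h4⟩ | ⟨h0, _⟩
        · left
          exact ⟨u, h1, h2, h3, by omega⟩
        · omega
      · right
        intro x hx
        rw [G.dist_comm]
        exact (dist_le_ecc hx.symm).trans (not_lt.1 hlt)
    · right
      push Not at hadj
      intro x hx
      rw [isolated hadj hx.symm, SimpleGraph.dist_self]
      omega

/-! ### existence -/

/-- a bound for all broadcasts -/
lemma broadcast_le {f : V → ℕ} (hb : IsBroadcast G f) (v : V) : f v ≤ ecc G v + 1 := by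
  by_cases h : ∃ u, G.Adj v u
  · have := (hb v).2 h
    omega
  · push Not at h
    rw [(hb v).1 h]
    omega

lemma exists_maximal (P : (V → ℕ) → Prop) (hP : ∃ f, IsBroadcast G f ∧ P f) :
    ∃ f, IsBroadcast G f ∧ P f ∧ ∀ g : V → ℕ, IsBroadcast G g → (∀ v, f v ≤ g v) → g ≠ f →
      ¬ P g := by
  have hfin : {k | ∃ f, (IsBroadcast G f ∧ P f) ∧ ∑ v, f v = k}.Finite := by
    apply (Set.finite_le_nat (∑ v, (ecc G v + 1))).subset
    rintro k ⟨f, ⟨hb, _⟩, rfl⟩
    exact Finset.sum_le_sum fun v _ => broadcast_le hb v
  obtain ⟨f0, hf0⟩ := hP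
  obtain ⟨k, ⟨f, ⟨hb, hPf⟩, rfl⟩, hmax⟩ := hfin.exists_maximal ⟨_, f0, hf0, rfl⟩
  refine ⟨f, hb, hPf, fun g hg hle hne hPg => ?_⟩
  have hlt : ∑ v, f v < ∑ v, g v := by
    apply Finset.sum_lt_sum (fun v _ => hle v)
    by_contra hcon
    push Not at hcon
    exact hne (funext fun v => le_antisymm (hcon v (Finset.mem_univ v)) (hle v))
  have := hmax ⟨g, ⟨hg, hPg⟩, rfl⟩ hlt.le
  omega

open Classical in
lemma exists_start (G : SimpleGraph V) : ∃ f : V → ℕ, IsBroadcast G f ∧ IsHearingIndep G f ∧
    IsBnIndep G f := by
  let f : V → ℕ := fun v => if ∃ u, G.Adj v u then 0 else 1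
  have hpos : ∀ v, 0 < f v → ∀ u, ¬ G.Adj v u := by
    intro v hv
    by_contra hcon
    push Not at hcon
    simp only [f, if_pos hcon] at hv
    exact absurd hv (lt_irrefl 0)
  refine ⟨f, ?_, ?_, ?_⟩
  · intro v
    constructor
    · intro h
      simp only [f]
      rw [if_neg (by push Not; exact h)]
    · intro h
      simp only [f]
      rw [if_pos h]
      exact Nat.zero_le _
  · rintro u v hu hne ⟨_, h2, _⟩
    exact hne (isolated (hpos u hu) h2)
  · apply bn_of_sep
    intro u v huv hu _ hr
    exact absurd (isolated (hpos u hu) hr).symm huv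

lemma exists_maximalBn (G : SimpleGraph V) : ∃ f, IsMaximalBn G f ∧ ∑ v, f v = iBn G := by
  obtain ⟨f0, h1, _, h3⟩ := exists_start G
  obtain ⟨f, h4, h5, h6⟩ := exists_maximal (IsBnIndep G) ⟨f0, h1, h3⟩
  have hne : {k | ∃ f : V → ℕ, IsMaximalBn G f ∧ ∑ v, f v = k}.Nonempty :=
    ⟨_, f, ⟨h4, h5, h6⟩, rfl⟩
  exact Nat.sInf_mem hne

lemma exists_maximalHearing (G : SimpleGraph V) :
    ∃ f, IsMaximalHearing G f ∧ ∑ v, f v = iH G := by
  obtain ⟨f0, h1, h2, _⟩ := exists_start G
  obtain ⟨f, h4, h5, h6⟩ := exists_maximal (IsHearingIndep G) ⟨f0, h1, h2⟩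
  have hne : {k | ∃ f : V → ℕ, IsMaximalHearing G f ∧ ∑ v, f v = k}.Nonempty :=
    ⟨_, f, ⟨h4, h5, h6⟩, rfl⟩
  exact Nat.sInf_mem hne

/-- `i_bn(G) ≤ i_h(G)` for every finite graph. -/
theorem iBn_le_iH (G : SimpleGraph V) : iBn G ≤ iH G := by
  obtain ⟨f, hf, hsum⟩ := exists_maximalHearing G
  rw [← hsum]
  exact iBn_le_of_good (good_of_maximalHearing hf)

end Q107.Bn
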