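import Pool.Agent.Q107.Bn.Merge

/-!
# Spanning trees with the same lower boundary independence broadcast number
-/

set_option autoImplicit false

namespace Q107.Bn

open SimpleGraph Finset

variable {V : Type}

/-- a pointer graph with a rank function is acyclic -/
lemma pointer_acyclic {B : SimpleGraph V} (par : V → V) (rank : V → ℕ)
    (h : ∀ a b, B.Adj a b → (par a = b ∧ rank b < rank a) ∨ (par b = a ∧ rank a < rank b)) :
    B.IsAcyclic := by
  classical
  intro v c hc
  -- a vertex of the cycle with maximal rank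
  obtain ⟨m, hm, hmax⟩ := Finset.exists_max_image c.support.toFinset rank
    ⟨v, by simp⟩
  have hm' : m ∈ c.support := by simpa using hm
  let c' := c.rotate m hm'
  have hc' : c'.IsCycle := hc.rotate hm'
  have hsup : ∀ x ∈ c'.support, rank x ≤ rank m := by
    intro x hx
    apply hmax
    rw [List.mem_toFinset]
    exact (Walk.mem_support_rotate_iff c m hm').1 hx
  have hnil : ¬ c'.Nil := hc'.not_nil
  have h1 : B.Adj m c'.snd := c'.adj_snd hnil
  have h2 : B.Adj c'.penultimate m := c'.adj_penultimate hnil
  have h3 : par m = c'.snd := by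
    rcases h _ _ h1 with h4 | h4
    · exact h4.1
    · have := hsup c'.snd (by
        exact c'.getVert_mem_support 1)
      omega
  have h5 : par m = c'.penultimate := by
    rcases h _ _ h2 with h4 | h4
    · have := hsup c'.penultimate (by
        exact c'.getVert_mem_support _)
      omega
    · exact h4.1
  exact hc'.snd_ne_penultimate (h3.symm.trans h5)

/-- a neighbour that is closer -/
lemma closer {G : SimpleGraph V} {x u : V} {k : ℕ} (h : G.Reachable x u)
    (hd : G.dist x u = k + 1) : ∃ a, G.Adj x a ∧ G.dist a u = k ∧ G.Reachable a u := by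
  obtain ⟨p, hp⟩ := h.exists_walk_length_eq_dist
  cases p with
  | nil => rw [Walk.length_nil] at hp; omega
  | cons h' q =>
    rename_i a
    refine ⟨a, h', ?_, ⟨q⟩⟩
    rw [Walk.length_cons] at hp
    have h1 := dist_le q
    have h2 := tri (c := u) h'.reachable
    rw [dist_eq_one_iff_adj.2 h'] at h2
    omega

/-- a spanning tree on which `f` is still good -/
lemma exists_good_tree {G : SimpleGraph V} (hG : G.Connected) {f : V → ℕ} (hf : Good G f)
    (hs : Sep G f) : ∃ T : SimpleGraph V, T ≤ G ∧ T.IsTree ∧ Good T f := by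
  classical
  choose own hown using hf.dom
  have hr : ∀ a b, G.Reachable a b := fun a b => hG a b
  -- interior vertices have a unique owner
  have huniq : ∀ z v, 0 < f v → G.dist z v < f v → own z = v := by
    intro z v hv hz
    by_contra hne
    obtain ⟨h1, _, h2⟩ := hown z
    have h3 := hs (own z) v hne h1 hv (hr _ _)
    have h4 := tri (c := v) (hr (own z) z)
    rw [G.dist_comm (u := own z) (v := z)] at h4
    omega
  have hcenter : ∀ v, 0 < f v → own v = v := fun v hv => huniq v v hv (by simpa using hv)
  -- parents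
  have hpar : ∀ x, ∃ z, (x ≠ own x → G.Adj x z ∧ G.dist z (own x) + 1 = G.dist x (own x)) := by
    intro x
    by_cases hx : x = own x
    · exact ⟨x, fun h => absurd hx h⟩
    · obtain ⟨k, hk⟩ := Nat.exists_eq_succ_of_ne_zero
        (((hr x (own x)).pos_dist_of_ne hx).ne')
      obtain ⟨a, h1, h2, _⟩ := closer (hr x (own x)) hk
      exact ⟨a, fun _ => ⟨h1, by omega⟩⟩
  choose par hpar using hpar
  have hparown : ∀ x, x ≠ own x → own (par x) = own x := by
    intro x hx
    obtain ⟨h1, h2⟩ := hpar x hx
    obtain ⟨h3, _, h4⟩ := hown x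
    exact huniq _ _ h3 (by omega)
  let B : SimpleGraph V := SimpleGraph.fromRel (fun x z => x ≠ own x ∧ par x = z)
  have hB : ∀ a b, B.Adj a b → (a ≠ own a ∧ par a = b) ∨ (b ≠ own b ∧ par b = a) := by
    intro a b h
    exact (SimpleGraph.fromRel_adj _ _ _).1 h |>.2
  have hBG : ∀ a b, B.Adj a b → G.Adj a b ∧ own a = own b := by
    intro a b h
    rcases hB a b h with ⟨h1, rfl⟩ | ⟨h1, rfl⟩
    · exact ⟨(hpar a h1).1, (hparown a h1).symm⟩
    · exact ⟨(hpar b h1).1.symm, hparown b h1⟩
  have hBac : B.IsAcyclic := by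
    apply pointer_acyclic par (fun x => G.dist x (own x))
    intro a b h
    rcases hB a b h with ⟨h1, rfl⟩ | ⟨h1, rfl⟩
    · left
      refine ⟨rfl, ?_⟩
      have := (hpar a h1).2
      rw [hparown a h1]
      omega
    · right
      refine ⟨rfl, ?_⟩
      have := (hpar b h1).2
      rw [hparown b h1]
      omega
  -- distances to the owner in `B`
  have hBd : ∀ (k : ℕ) (x : V), G.dist x (own x) = k →
      ∃ p : B.Walk x (own x), p.length ≤ k := by
    intro k
    induction k with
    | zero =>
      intro x hx
      have h1 := (hr x (own x)).dist_eq_zero_iff.1 hx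
      rw [← h1]
      exact ⟨Walk.nil, by simp⟩
    | succ k ih =>
      intro x hx
      have hne : x ≠ own x := by
        intro h
        rw [← h, SimpleGraph.dist_self] at hx
        omega
      obtain ⟨h1, h2⟩ := hpar x hne
      have h3 := hparown x hne
      obtain ⟨p, hp⟩ := ih (par x) (by rw [h3]; omega)
      have hadj : B.Adj x (par x) :=
        (SimpleGraph.fromRel_adj _ _ _).2 ⟨h1.ne, Or.inl ⟨hne, rfl⟩⟩
      refine ⟨Walk.cons hadj (p.copy rfl h3), ?_⟩
      rw [Walk.length_cons, Walk.length_copy]
      omega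
  -- touching edges
  let C : SimpleGraph V :=
    { Adj := fun a b => G.Adj a b ∧ own a ≠ own b ∧
        G.dist a (own a) + 1 + G.dist b (own b) ≤ f (own a) + f (own b)
      symm := ⟨fun a b h => ⟨h.1.symm, h.2.1.symm, by have := h.2.2; omega⟩⟩
      loopless := ⟨fun a h => h.2.1 rfl⟩ }
  have hGt : B ⊔ C ≤ G := by
    intro a b h
    rcases h with h | h
    · exact (hBG a b h).1
    · exact h.1
  obtain ⟨F, hBF, hFG, hFac, hFr⟩ :=
    (B ⊔ C).exists_isAcyclic_reachable_eq_le_of_le_of_isAcyclic le_sup_left hBac
  obtain ⟨T, hFT, hTG, hT⟩ := hG.exists_isTree_le_of_le_of_isAcyclic (hFG.trans hGt) hFac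
  have hBT : B ≤ T := hBF.trans hFT
  have hTd : ∀ x, T.dist x (own x) ≤ G.dist x (own x) := by
    intro x
    obtain ⟨p, hp⟩ := hBd _ x rfl
    have h1 := dist_le (p.mapLe hBT)
    rw [Walk.length_mapLe] at h1
    omega
  have hTr : ∀ a b, T.Reachable a b := fun a b => hT.connected a b
  refine ⟨T, hTG, hT, ⟨fun x => ?_, fun u hu => ?_⟩⟩
  · obtain ⟨h1, _, h2⟩ := hown x
    exact ⟨own x, h1, hTr _ _, (hTd x).trans h2⟩
  · -- a touching edge at the cell of `u`
    have hcell : (∃ a b, C.Adj a b ∧ own a = u) → ∃ w, w ≠ u ∧ 0 < f w ∧ T.Reachable w u ∧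
        T.dist w u ≤ f w + f u := by
      rintro ⟨a, b, hab, ha⟩
      have h1 : F.Reachable a b := by
        rw [hFr]
        exact (show (B ⊔ C).Adj a b from Or.inr hab).reachable
      obtain ⟨z, y, hzy, hz, hy, _⟩ := exit (P := fun x => own x = u) h1 ha
        (fun h => hab.2.1 (ha.trans h.symm))
      rcases hFG hzy with h2 | h2
      · exact absurd ((hBG z y h2).2.symm.trans hz) hy
      · refine ⟨own y, hy, (hown y).1, hTr _ _, ?_⟩
        have h3 := h2.2.2
        have e1 := tri (c := u) (hTr (own y) y)
        have e2 := tri (c := u) (hTr y z)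
        have e3 : T.dist y z = 1 := dist_eq_one_iff_adj.2 (hFT hzy).symm
        have e4 := hTd z
        have e5 := hTd y
        have e6 := T.dist_comm (u := own y) (v := y)
        rw [hz] at e4 h3
        omega
    rcases hf.touch u hu with ⟨w, h1, h2, h3, h4⟩ | hcov
    · left
      apply hcell
      -- the boundary vertex on a geodesic
      have h5 := hs w u h1 h2 hu h3
      have h6 : G.dist u w = f u + f w := by
        rw [G.dist_comm]
        omega
      obtain ⟨x, _, hx1, hx2⟩ := geod (i := f u) h3.symm (by omega)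
      rw [G.dist_comm] at hx1
      by_cases hox : own x = u
      · obtain ⟨k, hk⟩ := Nat.exists_eq_succ_of_ne_zero h2.ne'
        obtain ⟨b, hb1, hb2, _⟩ := closer (k := k) (hr x w) (by omega)
        have hb : own b = w := huniq b w h2 (by omega)
        refine ⟨x, b, ⟨hb1, ?_, ?_⟩, hox⟩
        · rw [hox, hb]
          exact h1.symm
        · rw [hox, hb]
          omega
      · obtain ⟨k, hk⟩ := Nat.exists_eq_succ_of_ne_zero hu.ne'
        obtain ⟨a, ha1, ha2, _⟩ := closer (k := k) (hr x u) (by omega)
        have ha : own a = u := huniq a u hu (by omega)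
        refine ⟨a, x, ⟨ha1.symm, ?_, ?_⟩, ha⟩
        · rw [ha]
          exact fun h => hox h.symm
        · rw [ha]
          have := (hown x).2.2
          omega
    · right
      intro x _
      have h1 : own x = u := by
        by_contra hne
        have h2 := hs (own x) u hne (hown x).1 hu (hr _ _)
        have h3 := hcov (own x) (hr _ _)
        have := (hown x).1
        omega
      have h2 := hTd x
      rw [h1] at h2
      exact h2.trans (hcov x (hr _ _))

/-- goodness passes to larger graphs -/
lemma Good.mono {G H : SimpleGraph V} (hle : H ≤ G) (hH : H.Connected) {f : V → ℕ}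
    (hf : Good H f) : Good G f := by
  constructor
  · intro x
    obtain ⟨v, h1, h2, h3⟩ := hf.dom x
    exact ⟨v, h1, h2.mono hle, (h2.dist_anti hle).trans h3⟩
  · intro v hv
    rcases hf.touch v hv with ⟨u, h1, h2, h3, h4⟩ | h
    · exact Or.inl ⟨u, h1, h2, h3.mono hle, (h3.dist_anti hle).trans h4⟩
    · right
      intro x _
      exact ((hH x v).dist_anti hle).trans (h x (hH x v))

/-- `i_bn(G)` is the minimum of `i_bn(T)` over the spanning trees `T` of `G`. -/
theorem iBn_isLeast [Fintype V] {G : SimpleGraph V} (hG : G.Connected) :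
    IsLeast {k | ∃ T : SimpleGraph V, T ≤ G ∧ T.IsTree ∧ iBn T = k} (iBn G) := by
  have hlow : ∀ T : SimpleGraph V, T ≤ G → T.IsTree → iBn G ≤ iBn T := by
    intro T hle hT
    obtain ⟨f, hf, hsum⟩ := exists_maximalBn T
    rw [← hsum]
    exact iBn_le_of_good ((good_of_maximalBn hf).mono hle hT.connected)
  constructor
  · obtain ⟨f, hf, hsum⟩ := exists_maximalBn G
    obtain ⟨T, h1, h2, h3⟩ := exists_good_tree hG (good_of_maximalBn hf) (sep_of_bn hf.2.1)
    refine ⟨T, h1, h2, le_antisymm ?_ (hlow T h1 h2)⟩
    rw [← hsum]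
    exact iBn_le_of_good h3
  · rintro k ⟨T, h1, h2, rfl⟩
    exact hlow T h1 h2

end Q107.Bn
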